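import Pool.Agent.Helper15.KP.Defs

/-!
# Two planar integrals
-/

set_option autoImplicit false

open MeasureTheory Set Filter Topology

noncomputable section

namespace Pool.Agent.Helper70.KP1

lemma hasDerivAt_max_pow {k : ℕ} (hk : 2 ≤ k) (x : ℝ) :
    HasDerivAt (fun x : ℝ => (max x 0) ^ k) (k * (max x 0) ^ (k - 1)) x := by
  rcases lt_trichotomy x 0 with h | h | h
  · have h1 : (fun x : ℝ => (max x 0) ^ k) =ᶠ[𝓝 x] fun _ => 0 := by
      filter_upwards [Iio_mem_nhds h] with y hy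
      rw [max_eq_right (le_of_lt hy), zero_pow (by omega)]
    rw [max_eq_right h.le, zero_pow (by omega), mul_zero]
    exact (hasDerivAt_const x (0 : ℝ)).congr_of_eventuallyEq h1
  · subst h
    rw [max_self, zero_pow (by omega), mul_zero]
    have h1 : HasDerivWithinAt (fun x : ℝ => (max x 0) ^ k) 0 (Iic 0) 0 := by
      refine (hasDerivWithinAt_const (0 : ℝ) (Iic 0) (0 : ℝ)).congr (fun y hy => ?_) ?_
      · rw [max_eq_right hy, zero_pow (by omega)]
      · rw [max_self, zero_pow (by omega)]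
    have h2 : HasDerivWithinAt (fun x : ℝ => (max x 0) ^ k) 0 (Ici 0) 0 := by
      have h3 := (hasDerivAt_pow k (0 : ℝ)).hasDerivWithinAt (s := Ici 0)
      rw [zero_pow (by omega), mul_zero] at h3
      refine h3.congr (fun y hy => ?_) ?_
      · rw [max_eq_left hy]
      · rw [max_self]
    have h3 := h1.union h2
    rwa [Iic_union_Ici, hasDerivWithinAt_univ] at h3
  · have h1 : (fun x : ℝ => (max x 0) ^ k) =ᶠ[𝓝 x] fun x => x ^ k := by
      filter_upwards [Ioi_mem_nhds h] with y hy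
      rw [max_eq_left (le_of_lt hy)]
    rw [max_eq_left h.le]
    exact (hasDerivAt_pow k x).congr_of_eventuallyEq h1

/-- compactly supported functions vanish near infinity -/
lemma exists_bound {κ : ℝ → ℝ} (hc : HasCompactSupport κ) :
    ∃ B : ℝ, 0 ≤ B ∧ ∀ s, B ≤ s → κ s = 0 ∧ deriv κ s = 0 := by
  obtain ⟨B, hB⟩ := hc.isCompact.isBounded.subset_closedBall 0
  refine ⟨max B 0 + 1, by positivity, fun s hs => ?_⟩
  have h1 : s ∉ tsupport κ := by
    intro h
    have h2 := hB h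
    rw [Metric.mem_closedBall, dist_zero_right, Real.norm_eq_abs] at h2
    have := le_abs_self s
    have := le_max_left B 0
    linarith
  refine ⟨image_eq_zero_of_notMem_tsupport h1, ?_⟩
  have h2 : s ∉ tsupport (deriv κ) := fun h => h1 (tsupport_deriv_subset h)
  exact image_eq_zero_of_notMem_tsupport h2

lemma integrable_of_bdd {f : ℝ → ℝ} (hf : Continuous f) {b : ℝ}
    (hb : ∀ x, b < |x| → f x = 0) : Integrable f := by
  refine hf.integrable_of_hasCompactSupport ?_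
  refine HasCompactSupport.intro (isCompact_Icc (a := -b) (b := b)) fun x hx => hb x ?_
  by_contra h
  exact hx (abs_le.1 (not_lt.1 h))

lemma integrable_of_bdd2 {f : ℝ × ℝ → ℝ} (hf : Continuous f) {b : ℝ}
    (hb : ∀ x, b < |x.1| ∨ b < |x.2| → f x = 0) : Integrable f := by
  refine hf.integrable_of_hasCompactSupport ?_
  refine HasCompactSupport.intro
    ((isCompact_Icc (a := -b) (b := b)).prod (isCompact_Icc (a := -b) (b := b))) fun x hx => hb x ?_
  by_contra h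
  push Not at h
  exact hx ⟨abs_le.1 h.1, abs_le.1 h.2⟩

lemma radial_nonneg {H H' : ℝ → ℝ} (hH : ∀ x, HasDerivAt H (H' x) x) (hH' : Continuous H')
    (hnn : ∀ x, 0 ≤ H x) (hs : ∀ x, 0 ≤ x * H' x) {κ : ℝ → ℝ} (hκ : ContDiff ℝ 2 κ)
    (hc : HasCompactSupport κ) (h0 : ∀ s, 0 ≤ κ s) (c C : ℝ) :
    0 ≤ ∫ ρ in Ioi (0 : ℝ), ρ * (H (ρ * C) * (- deriv κ (c + ρ ^ 2))) := by
  obtain ⟨B, hB0, hB⟩ := exists_bound hc
  have hHc : Continuous H := continuous_iff_continuousAt.2 fun x => (hH x).continuousAt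
  have hκc : Continuous κ := hκ.continuous
  have hκd : Continuous (deriv κ) := hκ.continuous_deriv (by norm_num)
  have hκ' : ∀ s, HasDerivAt κ (deriv κ s) s := fun s =>
    ((hκ.differentiable (by norm_num)) s).hasDerivAt
  set b : ℝ := B + |c| + 1 with hb
  have hbig : ∀ ρ : ℝ, b < |ρ| → B ≤ c + ρ ^ 2 := by
    intro ρ hρ
    have h1 : |ρ| ^ 2 = ρ ^ 2 := sq_abs ρ
    have h2 := neg_abs_le c
    have h3 := abs_nonneg c
    nlinarith
  set q : ℝ → ℝ := fun ρ => H (ρ * C) * (-(κ (c + ρ ^ 2) / 2)) with hq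
  set q' : ℝ → ℝ := fun ρ => (H' (ρ * C) * C) * (-(κ (c + ρ ^ 2) / 2)) +
    H (ρ * C) * (-(deriv κ (c + ρ ^ 2) * (2 * ρ) / 2)) with hq'
  have hqd : ∀ ρ, HasDerivAt q (q' ρ) ρ := by
    intro ρ
    have e1 : HasDerivAt (fun ρ => H (ρ * C)) (H' (ρ * C) * C) ρ := by
      have h1 : HasDerivAt (fun ρ : ℝ => ρ * C) C ρ := by
        simpa using (hasDerivAt_id ρ).mul_const C
      exact (hH (ρ * C)).comp ρ h1
    have e2 : HasDerivAt (fun ρ => κ (c + ρ ^ 2)) (deriv κ (c + ρ ^ 2) * (2 * ρ)) ρ := by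
      have h1 : HasDerivAt (fun ρ : ℝ => c + ρ ^ 2) (2 * ρ) ρ := by
        simpa using (hasDerivAt_pow 2 ρ).const_add c
      exact (hκ' _).comp ρ h1
    exact e1.mul (e2.div_const 2).neg
  have hq'c : Continuous q' := by
    simp only [hq']
    fun_prop
  have hq'i : Integrable q' := integrable_of_bdd hq'c (b := b) fun ρ hρ => by
    simp only [hq']
    rw [(hB _ (hbig ρ hρ)).1, (hB _ (hbig ρ hρ)).2]
    ring
  have hqt : Tendsto q atTop (𝓝 0) := by
    refine tendsto_const_nhds.congr' ?_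
    filter_upwards [eventually_gt_atTop b] with ρ hρ
    have h1 : b < |ρ| := lt_of_lt_of_le hρ (le_abs_self ρ)
    simp only [hq]
    rw [(hB _ (hbig ρ h1)).1]
    ring
  have hint := integral_Ioi_of_hasDerivAt_of_tendsto' (a := 0) (fun x _ => hqd x)
    hq'i.integrableOn hqt
  have hle : ∫ ρ in Ioi (0 : ℝ), q' ρ ≤
      ∫ ρ in Ioi (0 : ℝ), ρ * (H (ρ * C) * (- deriv κ (c + ρ ^ 2))) := by
    refine setIntegral_mono_on hq'i.integrableOn ?_ measurableSet_Ioi fun ρ hρ => ?_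
    · refine (integrable_of_bdd ?_ (b := b) fun ρ hρ => ?_).integrableOn
      · fun_prop
      · rw [(hB _ (hbig ρ hρ)).2]
        ring
    · have h1 : 0 ≤ H' (ρ * C) * C := by
        have h2 := hs (ρ * C)
        have h3 : (0 : ℝ) < ρ := hρ
        have h4 : ρ * C * H' (ρ * C) = ρ * (H' (ρ * C) * C) := by ring
        rw [h4] at h2
        exact nonneg_of_mul_nonneg_right h2 h3
      have h2 := h0 (c + ρ ^ 2)
      simp only [hq']
      nlinarith [mul_nonneg h1 h2]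
  refine le_trans ?_ hle
  rw [hint]
  have h1 := mul_nonneg (hnn (0 * C)) (h0 (c + 0 ^ 2))
  have h2 : 0 - q 0 = H (0 * C) * κ (c + 0 ^ 2) / 2 := by
    simp only [hq]
    ring
  rw [h2]
  exact div_nonneg h1 (by norm_num)

lemma planar_nonneg {H H' : ℝ → ℝ} (hH : ∀ x, HasDerivAt H (H' x) x) (hH' : Continuous H')
    (hnn : ∀ x, 0 ≤ H x) (hs : ∀ x, 0 ≤ x * H' x) {κ : ℝ → ℝ} (hκ : ContDiff ℝ 2 κ)
    (hc : HasCompactSupport κ) (h0 : ∀ s, 0 ≤ κ s) (c : ℝ) :
    0 ≤ ∫ p : ℝ × ℝ, H p.1 * (- deriv κ (c + (p.1 ^ 2 + p.2 ^ 2))) := by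
  rw [← integral_comp_polarCoord_symm, polarCoord_target]
  have h1 : ∀ p : ℝ × ℝ, p.1 • (H (polarCoord.symm p).1 *
      (- deriv κ (c + ((polarCoord.symm p).1 ^ 2 + (polarCoord.symm p).2 ^ 2)))) =
      p.1 * (H (p.1 * Real.cos p.2) * (- deriv κ (c + p.1 ^ 2))) := by
    intro p
    rw [polarCoord_symm_apply, smul_eq_mul]
    congr 4
    have := Real.cos_sq_add_sin_sq p.2
    linear_combination p.1 ^ 2 * this
  simp only [h1]
  by_cases hI : IntegrableOn (fun p : ℝ × ℝ =>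
      p.1 * (H (p.1 * Real.cos p.2) * (- deriv κ (c + p.1 ^ 2))))
      (Ioi (0 : ℝ) ×ˢ Ioo (-Real.pi) Real.pi) (volume.prod volume)
  · rw [Measure.volume_eq_prod, ← setIntegral_prod_swap]
    have hI' : IntegrableOn (fun z : ℝ × ℝ => (fun p : ℝ × ℝ =>
      p.1 * (H (p.1 * Real.cos p.2) * (- deriv κ (c + p.1 ^ 2)))) z.swap)
      (Ioo (-Real.pi) Real.pi ×ˢ Ioi (0 : ℝ)) (volume.prod volume) := by
      rw [IntegrableOn, ← Measure.prod_restrict] at hI ⊢
      exact hI.swap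
    rw [setIntegral_prod _ hI']
    refine integral_nonneg fun φ => ?_
    exact radial_nonneg hH hH' hnn hs hκ hc h0 c (Real.cos φ)
  · rw [Measure.volume_eq_prod, integral_undef hI]

/-- symmetrisation -/
lemma planar_nonneg' {g g' : ℝ → ℝ} (hg : ∀ x, HasDerivAt g (g' x) x) (hg' : Continuous g')
    (hnn : ∀ x, 0 ≤ g x) (hm : Monotone g') {κ : ℝ → ℝ} (hκ : ContDiff ℝ 2 κ)
    (hc : HasCompactSupport κ) (h0 : ∀ s, 0 ≤ κ s) (c : ℝ) :
    0 ≤ ∫ p : ℝ × ℝ, g p.1 * (- deriv κ (c + (p.1 ^ 2 + p.2 ^ 2))) := by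
  obtain ⟨B, hB0, hB⟩ := exists_bound hc
  have hgc : Continuous g := continuous_iff_continuousAt.2 fun x => (hg x).continuousAt
  have hκd : Continuous (deriv κ) := hκ.continuous_deriv (by norm_num)
  have hneg : Continuous fun x : ℝ => g (-x) := hgc.comp continuous_neg
  have hbig : ∀ p : ℝ × ℝ, (B + |c| + 1 < |p.1| ∨ B + |c| + 1 < |p.2|) →
      B ≤ c + (p.1 ^ 2 + p.2 ^ 2) := by
    intro p hp
    have h2 := neg_abs_le c
    have h3 := abs_nonneg c
    rcases hp with h | h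
    · have h1 : |p.1| ^ 2 = p.1 ^ 2 := sq_abs _
      nlinarith [sq_nonneg p.2]
    · have h1 : |p.2| ^ 2 = p.2 ^ 2 := sq_abs _
      nlinarith [sq_nonneg p.1]
  have i1 : Integrable fun p : ℝ × ℝ => g p.1 * (- deriv κ (c + (p.1 ^ 2 + p.2 ^ 2))) := by
    refine integrable_of_bdd2 ?_ (b := B + |c| + 1) fun p hp => ?_
    · fun_prop
    · rw [(hB _ (hbig p hp)).2, neg_zero, mul_zero]
  have i2 : Integrable fun p : ℝ × ℝ => g (-p.1) * (- deriv κ (c + (p.1 ^ 2 + p.2 ^ 2))) := by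
    refine integrable_of_bdd2 ?_ (b := B + |c| + 1) fun p hp => ?_
    · fun_prop
    · rw [(hB _ (hbig p hp)).2, neg_zero, mul_zero]
  have e1 : ∫ p : ℝ × ℝ, g (-p.1) * (- deriv κ (c + (p.1 ^ 2 + p.2 ^ 2))) =
      ∫ p : ℝ × ℝ, g p.1 * (- deriv κ (c + (p.1 ^ 2 + p.2 ^ 2))) := by
    rw [← integral_neg_eq_self (fun p : ℝ × ℝ => g p.1 * (- deriv κ (c + (p.1 ^ 2 + p.2 ^ 2))))]
    congr 1
    funext p
    rw [Prod.fst_neg, Prod.snd_neg, neg_sq, neg_sq]
  have e2 : ∫ p : ℝ × ℝ, (g p.1 + g (-p.1)) * (- deriv κ (c + (p.1 ^ 2 + p.2 ^ 2))) =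
      2 * ∫ p : ℝ × ℝ, g p.1 * (- deriv κ (c + (p.1 ^ 2 + p.2 ^ 2))) := by
    simp only [add_mul]
    rw [integral_add i1 i2, e1]
    ring
  have e3 : 0 ≤ ∫ p : ℝ × ℝ, (g p.1 + g (-p.1)) * (- deriv κ (c + (p.1 ^ 2 + p.2 ^ 2))) := by
    refine planar_nonneg (H := fun x => g x + g (-x)) (H' := fun x => g' x - g' (-x))
      (fun x => ?_) ?_ (fun x => add_nonneg (hnn _) (hnn _)) (fun x => ?_) hκ hc h0 c
    · have h1 : HasDerivAt (fun x => g (-x)) (g' (-x) * (-1)) x :=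
        (hg (-x)).comp x (hasDerivAt_neg x)
      have h2 : HasDerivAt (fun x => g x + g (-x)) (g' x + g' (-x) * (-1)) x := (hg x).add h1
      have h3 : g' x + g' (-x) * (-1) = g' x - g' (-x) := by ring
      rwa [h3] at h2
    · exact hg'.sub (hg'.comp continuous_neg)
    · rcases le_total 0 x with h | h
      · exact mul_nonneg h (sub_nonneg.2 (hm (by linarith)))
      · exact mul_nonneg_of_nonpos_of_nonpos h (sub_nonpos.2 (hm (by linarith)))
  rw [e2] at e3
  linarith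

theorem pos2 (κ : ℝ → ℝ) (hκ : ContDiff ℝ 2 κ) (hc : HasCompactSupport κ) (h0 : ∀ s, 0 ≤ κ s)
    (k : ℕ) (hk : 2 ≤ k) (α β P : ℝ) (hα : 0 < α) :
    0 ≤ ∫ p in (Ioi (0 : ℝ)) ×ˢ (univ : Set ℝ),
      p.1 ^ k * (- deriv κ (α * p.1 ^ 2 - 2 * β * p.1 + P + p.2 ^ 2)) := by
  obtain ⟨B, hB0, hB⟩ := exists_bound hc
  have hκd : Continuous (deriv κ) := hκ.continuous_deriv (by norm_num)
  set f : ℝ × ℝ → ℝ := fun p =>
    (max p.1 0) ^ k * (- deriv κ (α * p.1 ^ 2 - 2 * β * p.1 + P + p.2 ^ 2)) with hf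
  have h1 : ∫ p in (Ioi (0 : ℝ)) ×ˢ (univ : Set ℝ),
      p.1 ^ k * (- deriv κ (α * p.1 ^ 2 - 2 * β * p.1 + P + p.2 ^ 2)) = ∫ p, f p := by
    rw [← setIntegral_eq_integral_of_forall_compl_eq_zero (f := f)
      (s := (Ioi (0 : ℝ)) ×ˢ (univ : Set ℝ))]
    · refine setIntegral_congr_fun (measurableSet_Ioi.prod MeasurableSet.univ) fun p hp => ?_
      have : (0 : ℝ) < p.1 := hp.1
      simp only [hf]
      rw [max_eq_left this.le]
    · intro p hp
      have h2 : p.1 ≤ 0 := by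
        by_contra h
        exact hp ⟨not_le.1 h, mem_univ _⟩
      simp only [hf]
      rw [max_eq_right h2, zero_pow (by omega), zero_mul]
  rw [h1]
  by_cases hI : Integrable f
  swap
  · rw [integral_undef hI]
  rw [Measure.volume_eq_prod] at hI ⊢
  rw [integral_prod_symm _ hI]
  -- the change of variables
  set s : ℝ := Real.sqrt α with hs
  have hs0 : 0 < s := Real.sqrt_pos.2 hα
  have hs2 : s ^ 2 = α := Real.sq_sqrt hα.le
  set b : ℝ := β / s with hb
  have hbs : b * s = β := by rw [hb]; field_simp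
  set c : ℝ := P - b ^ 2 with hcdef
  have h2 : ∀ x y : ℝ, f (s⁻¹ * (x + b), y) = (s⁻¹) ^ k *
      ((max (x + b) 0) ^ k * (- deriv κ (c + (x ^ 2 + y ^ 2)))) := by
    intro x y
    simp only [hf]
    have e1 : max (s⁻¹ * (x + b)) 0 = s⁻¹ * max (x + b) 0 := by
      rw [mul_max_of_nonneg _ _ (inv_pos.2 hs0).le, mul_zero]
    have e2 : α * (s⁻¹ * (x + b)) ^ 2 - 2 * β * (s⁻¹ * (x + b)) + P + y ^ 2 =
        c + (x ^ 2 + y ^ 2) := by
      rw [← hs2, ← hbs, hcdef]
      field_simp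
      ring
    rw [e1, e2, mul_pow]
    ring
  have h3 : ∀ y : ℝ, ∫ x : ℝ, f (x, y) = s⁻¹ ^ (k + 1) *
      ∫ x : ℝ, (max (x + b) 0) ^ k * (- deriv κ (c + (x ^ 2 + y ^ 2))) := by
    intro y
    have e1 := Measure.integral_comp_mul_left (fun x => f (x, y)) s⁻¹
    have e2 := integral_add_right_eq_self (μ := (volume : Measure ℝ))
      (fun x => f (s⁻¹ * x, y)) b
    rw [e1, inv_inv, abs_of_pos hs0, smul_eq_mul] at e2
    simp only [h2] at e2
    rw [integral_const_mul] at e2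
    have e3 : ∫ x : ℝ, f (x, y) = s⁻¹ * (s * ∫ x : ℝ, f (x, y)) := by
      field_simp
    rw [e3, ← e2, pow_succ]
    ring
  simp only [h3]
  rw [integral_const_mul]
  refine mul_nonneg (by positivity) ?_
  have hi : Integrable (fun p : ℝ × ℝ =>
      (max (p.1 + b) 0) ^ k * (- deriv κ (c + (p.1 ^ 2 + p.2 ^ 2)))) (volume.prod volume) := by
    rw [← Measure.volume_eq_prod]
    have h2 := neg_abs_le c
    have h3 := abs_nonneg c
    refine integrable_of_bdd2 ?_ (b := B + |c| + 1) fun p hp => ?_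
    · fun_prop
    · rw [(hB _ ?_).2, neg_zero, mul_zero]
      rcases hp with h | h
      · have h1 : |p.1| ^ 2 = p.1 ^ 2 := sq_abs _
        nlinarith [sq_nonneg p.2]
      · have h1 : |p.2| ^ 2 = p.2 ^ 2 := sq_abs _
        nlinarith [sq_nonneg p.1]
  rw [← integral_prod_symm (fun p : ℝ × ℝ =>
      (max (p.1 + b) 0) ^ k * (- deriv κ (c + (p.1 ^ 2 + p.2 ^ 2)))) hi,
    ← Measure.volume_eq_prod]
  refine planar_nonneg' (g := fun x => (max (x + b) 0) ^ k)
    (g' := fun x => k * (max (x + b) 0) ^ (k - 1)) (fun x => ?_) (by fun_prop)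
    (fun x => by positivity) (fun x y hxy => ?_) hκ hc h0 c
  · have e1 := (hasDerivAt_max_pow hk (x + b)).comp x ((hasDerivAt_id x).add_const b)
    rw [mul_one] at e1
    exact e1
  · have e1 : max (x + b) 0 ≤ max (y + b) 0 := max_le_max (by linarith) le_rfl
    have e2 : 0 ≤ max (x + b) 0 := le_max_right _ _
    change (k : ℝ) * (max (x + b) 0) ^ (k - 1) ≤ k * (max (y + b) 0) ^ (k - 1)
    gcongr

theorem radial2 (G : ℝ → ℝ) (hG : Continuous G) (hs : HasCompactSupport G) (a : ℝ) :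
    ∫ p : ℝ × ℝ, G (a + p.1 ^ 2 + p.2 ^ 2) = Real.pi * ∫ u in Ioi a, G u := by
  obtain ⟨B, hB0, hB⟩ := exists_bound hs
  rw [← integral_comp_polarCoord_symm, polarCoord_target]
  have h1 : ∀ p : ℝ × ℝ, p.1 • (G (a + (polarCoord.symm p).1 ^ 2 + (polarCoord.symm p).2 ^ 2)) =
      (p.1 * G (a + p.1 ^ 2)) * (fun _ : ℝ => (1 : ℝ)) p.2 := by
    intro p
    rw [polarCoord_symm_apply, smul_eq_mul, mul_one]
    congr 2
    have := Real.cos_sq_add_sin_sq p.2
    linear_combination p.1 ^ 2 * this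
  simp only [h1]
  rw [Measure.volume_eq_prod,
    setIntegral_prod_mul (fun x : ℝ => x * G (a + x ^ 2)) (fun _ : ℝ => (1 : ℝ))]
  have h2 : ∫ _ in Ioo (-Real.pi) Real.pi, (1 : ℝ) = 2 * Real.pi := by
    rw [setIntegral_const, smul_eq_mul, mul_one, measureReal_def, Real.volume_Ioo,
      ENNReal.toReal_ofReal (by linarith [Real.pi_pos])]
    ring
  have h3 : ∫ x in Ioi (0 : ℝ), (G ∘ (fun x : ℝ => a + x ^ 2)) x * (2 * x) =
      ∫ u in Ioi ((fun x : ℝ => a + x ^ 2) 0), G u := by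
    refine integral_comp_mul_deriv_Ioi (by fun_prop) ?_ (fun x _ => ?_) hG.continuousOn ?_ ?_
    · exact tendsto_atTop_add_const_left _ _ (tendsto_pow_atTop (by norm_num))
    · have h1 : HasDerivAt (fun ρ : ℝ => a + ρ ^ 2) (2 * x) x := by
        simpa using (hasDerivAt_pow 2 x).const_add a
      exact h1.hasDerivWithinAt
    · exact (hG.integrable_of_hasCompactSupport hs).integrableOn
    · refine (integrable_of_bdd ?_ (b := B + |a| + 1) fun x hx => ?_).integrableOn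
      · fun_prop
      · have h1 : |x| ^ 2 = x ^ 2 := sq_abs _
        have h2 := neg_abs_le a
        have h3 := abs_nonneg a
        change G (a + x ^ 2) * _ = 0
        rw [(hB _ ?_).1, zero_mul]
        nlinarith
  have h4 : ∫ x in Ioi (0 : ℝ), (G ∘ (fun x : ℝ => a + x ^ 2)) x * (2 * x) =
      2 * ∫ x in Ioi (0 : ℝ), x * G (a + x ^ 2) := by
    rw [← integral_const_mul]
    congr 1
    funext x
    change G (a + x ^ 2) * (2 * x) = _
    ring
  rw [h4] at h3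
  have h5 : (fun x : ℝ => a + x ^ 2) 0 = a := by norm_num
  rw [h5] at h3
  rw [h2, ← h3]
  ring

end Pool.Agent.Helper70.KP1
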